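import Pool.Agent.V7H6.ET.Spec

set_option autoImplicit false

/-!
# The trivial bound with the saving of a logarithm for the error terms
-/

namespace Pool.Agent.V7H94.ET

open Finset Pool.Agent.V7H6.ET

lemma piAP_le {x y q a : ℕ} (hy : y ≤ x) (ha : a < q) :
    primePiAP y q a ≤ ((range (x / q + 1)).filter (fun t => (a + t * q).Prime)).card := by
  have hq : 0 < q := by omega
  have hp : ∀ p : ℕ, p ≡ a [MOD q] → a + p / q * q = p := by
    intro p h
    have h1 : p % q = a := by
      have h2 : p % q = a % q := h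
      rw [h2, Nat.mod_eq_of_lt ha]
    have h2 := Nat.mod_add_div p q
    rw [h1, mul_comm] at h2
    exact h2
  unfold primePiAP
  apply card_le_card_of_injOn (fun p : ℕ => p / q)
  · intro p hpm
    rw [mem_coe, mem_filter, mem_Icc] at hpm
    obtain ⟨⟨-, h1⟩, h2, h3⟩ := hpm
    rw [mem_coe, mem_filter, mem_range]
    refine ⟨Nat.lt_succ_of_le (Nat.div_le_div_right (h1.trans hy)), ?_⟩
    simp only
    rw [hp p h3]
    exact h2
  · intro p hpm p' hpm' h
    rw [mem_coe, mem_filter] at hpm hpm'
    simp only at h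
    rw [← hp p hpm.2.2, ← hp p' hpm'.2.2, h]

lemma pi_le {x y : ℕ} (hy : y ≤ x) :
    primePi y ≤ ((range (x + 1)).filter (fun t => (0 + t * 1).Prime)).card := by
  unfold primePi
  apply card_le_card
  intro p hp
  rw [mem_filter, mem_Icc] at hp
  rw [mem_filter, mem_range]
  refine ⟨by omega, ?_⟩
  rw [zero_add, mul_one]
  exact hp.2

theorem t_BT : S_BT2 → S_BT := by
  intro hBT θ hθ
  obtain ⟨N₀, hN3, hN⟩ := hBT 1 one_pos
  have hθ1 : 0 < 1 - θ := by linarith
  have hN0 : (0 : ℝ) < N₀ := by exact_mod_cast (by omega : 0 < N₀)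
  refine ⟨6 / (1 - θ) + N₀ / (1 - θ) + (6 + N₀), by positivity, fun x hx q hq hqx a ha => ?_⟩
  have hx1 : (1 : ℝ) < x := by exact_mod_cast (by omega : 1 < x)
  have hx0 : (0 : ℝ) < x := by linarith
  have hlx : 0 < Real.log x := Real.log_pos hx1
  have hφ : (0 : ℝ) < Nat.totient q := by exact_mod_cast Nat.totient_pos.2 hq
  have hq0 : (0 : ℝ) < q := by exact_mod_cast hq
  have hφq : (Nat.totient q : ℝ) ≤ q := by exact_mod_cast Nat.totient_le q
  have hxθ : (x : ℝ) ^ θ ≤ x := by
    calc (x : ℝ) ^ θ ≤ (x : ℝ) ^ (1 : ℝ) := Real.rpow_le_rpow_of_exponent_le hx1.le hθ.le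
      _ = x := Real.rpow_one _
  have hqx' : (q : ℝ) ≤ x := hqx.trans hxθ
  have hpow : (x : ℝ) ^ (1 - θ) * q ≤ x := by
    calc (x : ℝ) ^ (1 - θ) * q ≤ (x : ℝ) ^ (1 - θ) * (x : ℝ) ^ θ :=
          mul_le_mul_of_nonneg_left hqx (by positivity)
      _ = x := by rw [← Real.rpow_add hx0, sub_add_cancel, Real.rpow_one]
  have hpow' : (x : ℝ) ^ (1 - θ) ≤ x / q := by
    rw [le_div_iff₀ hq0]
    exact hpow
  have hlog1 : (1 - θ) * Real.log x ≤ (x : ℝ) ^ (1 - θ) := by
    have h1 := Real.add_one_le_exp ((1 - θ) * Real.log x)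
    have h2 : (x : ℝ) ^ (1 - θ) = Real.exp ((1 - θ) * Real.log x) := by
      rw [Real.rpow_def_of_pos hx0, mul_comm]
    rw [h2]
    linarith
  have hlogx : Real.log x ≤ x := by
    have := Real.log_le_sub_one_of_pos hx0
    linarith
  set U : ℝ := (x : ℝ) / ((Nat.totient q : ℝ) * Real.log x) with hU
  have hU0 : 0 < U := by positivity
  have ha' : a < q := by
    unfold residues at ha
    exact mem_range.1 (mem_filter.1 ha).1
  -- the count in the progression
  have hcount : (((range (x / q + 1)).filter (fun t => (a + t * q).Prime)).card : ℝ) ≤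
      (6 / (1 - θ) + N₀ / (1 - θ)) * U := by
    rcases le_or_gt N₀ (x / q + 1) with h | h
    · have h1 := hN a q (x / q + 1) hq h
      have h2 : (x : ℝ) / q < ((x / q + 1 : ℕ) : ℝ) := by
        push_cast
        have h3 := Nat.lt_div_mul_add (a := x) hq
        rw [div_lt_iff₀ hq0]
        have h4 : (x : ℝ) < ((x / q * q + q : ℕ) : ℝ) := by exact_mod_cast h3
        push_cast at h4
        linarith
      have h5 : ((x / q + 1 : ℕ) : ℝ) ≤ 2 * x / q := by
        have h6 : ((x / q : ℕ) : ℝ) ≤ x / q := Nat.cast_div_le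
        have h7 : (1 : ℝ) ≤ x / q := by
          rw [le_div_iff₀ hq0]
          linarith
        push_cast
        have h8 : 2 * (x : ℝ) / q = x / q + x / q := by ring
        linarith
      have h9 : (1 - θ) * Real.log x ≤ Real.log ((x / q + 1 : ℕ) : ℝ) := by
        rw [← Real.log_rpow hx0]
        exact Real.log_le_log (by positivity) (hpow'.trans h2.le)
      have h10 : 0 < Real.log ((x / q + 1 : ℕ) : ℝ) := lt_of_lt_of_le (by positivity) h9
      calc (((range (x / q + 1)).filter (fun t => (a + t * q).Prime)).card : ℝ)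
          ≤ (2 + 1) * ((q : ℝ) / Nat.totient q) * ((x / q + 1 : ℕ) : ℝ) /
            Real.log ((x / q + 1 : ℕ) : ℝ) := h1
        _ ≤ (2 + 1) * ((q : ℝ) / Nat.totient q) * (2 * x / q) / ((1 - θ) * Real.log x) := by
            apply div_le_div₀ (by positivity) (mul_le_mul_of_nonneg_left h5 (by positivity))
              (by positivity) h9
        _ = 6 / (1 - θ) * U := by
            rw [hU]
            field_simp
            ring
        _ ≤ (6 / (1 - θ) + N₀ / (1 - θ)) * U := by
            apply mul_le_mul_of_nonneg_right _ hU0.le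
            have : 0 ≤ (N₀ : ℝ) / (1 - θ) := by positivity
            linarith
    · have h1 : (((range (x / q + 1)).filter (fun t => (a + t * q).Prime)).card : ℝ) ≤ N₀ := by
        have h2 := card_filter_le (range (x / q + 1)) (fun t => (a + t * q).Prime)
        rw [card_range] at h2
        exact_mod_cast h2.trans h.le
      have h3 : 1 - θ ≤ U := by
        rw [hU, le_div_iff₀ (by positivity)]
        calc (1 - θ) * ((Nat.totient q : ℝ) * Real.log x)
            = (Nat.totient q : ℝ) * ((1 - θ) * Real.log x) := by ring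
          _ ≤ q * (x : ℝ) ^ (1 - θ) := mul_le_mul hφq hlog1 (by positivity) hq0.le
          _ ≤ x := by linarith
      calc (((range (x / q + 1)).filter (fun t => (a + t * q).Prime)).card : ℝ) ≤ N₀ := h1
        _ = N₀ / (1 - θ) * (1 - θ) := by field_simp
        _ ≤ N₀ / (1 - θ) * U := mul_le_mul_of_nonneg_left h3 (by positivity)
        _ ≤ (6 / (1 - θ) + N₀ / (1 - θ)) * U := by
            apply mul_le_mul_of_nonneg_right _ hU0.le
            have : 0 ≤ 6 / (1 - θ) := by positivity
            linarith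
  -- the count of all the primes
  have hall : (((range (x + 1)).filter (fun t => (0 + t * 1).Prime)).card : ℝ) ≤
      (6 + N₀) * (x / Real.log x) := by
    have hxl : 1 ≤ x / Real.log x := by
      rw [le_div_iff₀ hlx]
      linarith
    rcases le_or_gt N₀ (x + 1) with h | h
    · have h1 := hN 0 1 (x + 1) le_rfl h
      have h2 : Real.log x ≤ Real.log ((x + 1 : ℕ) : ℝ) :=
        Real.log_le_log hx0 (by push_cast; linarith)
      calc (((range (x + 1)).filter (fun t => (0 + t * 1).Prime)).card : ℝ)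
          ≤ (2 + 1) * (((1 : ℕ) : ℝ) / Nat.totient 1) * ((x + 1 : ℕ) : ℝ) /
            Real.log ((x + 1 : ℕ) : ℝ) := h1
        _ = 3 * ((x + 1 : ℕ) : ℝ) / Real.log ((x + 1 : ℕ) : ℝ) := by
            rw [Nat.totient_one]
            norm_num
        _ ≤ 6 * x / Real.log x := by
            apply div_le_div₀ (by positivity) _ hlx h2
            push_cast
            linarith
        _ = 6 * (x / Real.log x) := by ring
        _ ≤ (6 + N₀) * (x / Real.log x) := by
            apply mul_le_mul_of_nonneg_right _ (by linarith)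
            linarith
    · have h1 : (((range (x + 1)).filter (fun t => (0 + t * 1).Prime)).card : ℝ) ≤ N₀ := by
        have h2 := card_filter_le (range (x + 1)) (fun t => (0 + t * 1).Prime)
        rw [card_range] at h2
        exact_mod_cast h2.trans h.le
      nlinarith
  unfold errMax
  apply sup'_le
  intro y hy
  have hy' : y ≤ x := by
    have := mem_range.1 hy
    omega
  have h1 : (primePiAP y q a : ℝ) ≤ (6 / (1 - θ) + N₀ / (1 - θ)) * U := by
    refine le_trans ?_ hcount
    exact_mod_cast piAP_le hy' ha'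
  have h2 : (primePi y : ℝ) ≤ (6 + N₀) * (x / Real.log x) := by
    refine le_trans ?_ hall
    exact_mod_cast pi_le hy'
  have h3 : (primePi y : ℝ) / (Nat.totient q : ℝ) ≤ (6 + N₀) * U := by
    rw [div_le_iff₀ hφ]
    refine h2.trans (le_of_eq ?_)
    rw [hU]
    field_simp
  have h4 : (0 : ℝ) ≤ (primePiAP y q a : ℝ) := Nat.cast_nonneg _
  have h5 : (0 : ℝ) ≤ (primePi y : ℝ) / (Nat.totient q : ℝ) := by positivity
  have h6 : (6 / (1 - θ) + N₀ / (1 - θ) + (6 + N₀)) * (x : ℝ) / ((Nat.totient q : ℝ) * Real.log x) =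
      (6 / (1 - θ) + N₀ / (1 - θ)) * U + (6 + N₀) * U := by
    rw [hU]
    ring
  unfold err
  rw [h6, abs_le]
  have h7 : 0 ≤ (6 / (1 - θ) + (N₀ : ℝ) / (1 - θ)) * U := by positivity
  have h8 : 0 ≤ (6 + (N₀ : ℝ)) * U := by positivity
  constructor <;> linarith

end Pool.Agent.V7H94.ET
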