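import Pool.Agent.V7H6.ET.Spec
import Pool.Agent.V7H94.ET.BT

set_option autoImplicit false

/-!
# Elliott-Halberstam: from the length `x` to all lengths `y ≤ x`
-/

namespace Pool.Agent.V7H94.ET

open Finset Pool.Agent.V7H6.ET

lemma pi_mono {u v : ℕ} (h : u ≤ v) : primePi u ≤ primePi v := by
  unfold primePi
  exact card_le_card (filter_subset_filter _ (Icc_subset_Icc_right h))

lemma piAP_mono {u v q a : ℕ} (h : u ≤ v) : primePiAP u q a ≤ primePiAP v q a := by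
  unfold primePiAP
  exact card_le_card (filter_subset_filter _ (Icc_subset_Icc_right h))

lemma pi_sub {u v : ℕ} : primePi v ≤ primePi u + (v - u) := by
  unfold primePi
  have hsub : (Icc 1 v).filter (fun p : ℕ => p.Prime) ⊆
      (Icc 1 u).filter (fun p : ℕ => p.Prime) ∪ Ioc u v := by
    intro p hp
    rw [mem_filter, mem_Icc] at hp
    rw [mem_union, mem_filter, mem_Icc, mem_Ioc]
    by_cases hpu : p ≤ u
    · exact Or.inl ⟨⟨hp.1.1, hpu⟩, hp.2⟩
    · exact Or.inr ⟨not_le.1 hpu, hp.1.2⟩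
  refine (card_le_card hsub).trans ((card_union_le _ _).trans ?_)
  rw [Nat.card_Ioc]

lemma err_nonneg (y q a : ℕ) : 0 ≤ err y q a := abs_nonneg _

lemma errMax_nonneg (x q a : ℕ) : 0 ≤ errMax x q a := by
  unfold errMax
  exact (err_nonneg 0 q a).trans (le_sup' (fun y => err y q a) (mem_range.2 (Nat.succ_pos x)))

lemma err_between {u y v q a : ℕ} (huy : u ≤ y) (hyv : y ≤ v) :
    err y q a ≤ err u q a + err v q a + ((v : ℝ) - u) / (Nat.totient q : ℝ) := by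
  have hφ : (0 : ℝ) ≤ Nat.totient q := Nat.cast_nonneg _
  have h1 : (primePiAP u q a : ℝ) ≤ primePiAP y q a := by exact_mod_cast piAP_mono huy
  have h2 : (primePiAP y q a : ℝ) ≤ primePiAP v q a := by exact_mod_cast piAP_mono hyv
  have h3 : (primePi u : ℝ) / (Nat.totient q : ℝ) ≤ (primePi y : ℝ) / (Nat.totient q : ℝ) :=
    div_le_div_of_nonneg_right (by exact_mod_cast pi_mono huy) hφ
  have h4 : (primePi y : ℝ) / (Nat.totient q : ℝ) ≤ (primePi v : ℝ) / (Nat.totient q : ℝ) :=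
    div_le_div_of_nonneg_right (by exact_mod_cast pi_mono hyv) hφ
  have h5 : (primePi v : ℝ) / (Nat.totient q : ℝ) - (primePi u : ℝ) / (Nat.totient q : ℝ) ≤
      ((v : ℝ) - u) / (Nat.totient q : ℝ) := by
    rw [← sub_div]
    apply div_le_div_of_nonneg_right _ hφ
    have h6 := pi_sub (u := u) (v := v)
    have h7 : primePi v + u ≤ primePi u + v := by
      have := huy.trans hyv
      omega
    have h8 : (primePi v : ℝ) + u ≤ primePi u + v := by exact_mod_cast h7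
    linarith
  unfold err
  have a1 := neg_abs_le ((primePiAP u q a : ℝ) - (primePi u : ℝ) / (Nat.totient q : ℝ))
  have a2 := le_abs_self ((primePiAP v q a : ℝ) - (primePi v : ℝ) / (Nat.totient q : ℝ))
  have a3 := abs_nonneg ((primePiAP u q a : ℝ) - (primePi u : ℝ) / (Nat.totient q : ℝ))
  have a4 := abs_nonneg ((primePiAP v q a : ℝ) - (primePi v : ℝ) / (Nat.totient q : ℝ))
  rw [abs_le]
  constructor <;> linarith

lemma errMax_le {x q a J : ℕ} (hx : 1 ≤ x) (hJ : 1 ≤ J) :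
    errMax x q a ≤ 2 * ∑ j ∈ range (J + 1), err (j * x / J) q a +
      ((x : ℝ) / J + 1) / (Nat.totient q : ℝ) := by
  have hJ0 : (0 : ℝ) < J := by exact_mod_cast hJ
  unfold errMax
  apply sup'_le
  intro y hy
  have hyx : y ≤ x := by
    have := mem_range.1 hy
    omega
  obtain ⟨j, hj⟩ : ∃ j, j = y * J / x := ⟨_, rfl⟩
  have hjJ : j ≤ J := by
    rw [hj]
    calc y * J / x ≤ x * J / x := Nat.div_le_div_right (Nat.mul_le_mul_right _ hyx)
      _ = J := Nat.mul_div_cancel_left _ (by omega)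
  have h1 : j * x ≤ y * J := by
    rw [hj]
    exact Nat.div_mul_le_self _ _
  have h1' : y * J < j * x + x := by
    rw [hj]
    exact Nat.lt_div_mul_add (by omega)
  have hu : j * x / J ≤ y := by
    apply Nat.div_le_of_le_mul
    rw [mul_comm J y]
    exact h1
  obtain ⟨i, hi, hyi, hij⟩ : ∃ i, i ≤ J ∧ y ≤ i * x / J ∧ i ≤ j + 1 := by
    rcases Nat.lt_or_ge j J with h | h
    · refine ⟨j + 1, h, ?_, le_rfl⟩
      rw [Nat.le_div_iff_mul_le (by omega)]
      have : (j + 1) * x = j * x + x := by ring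
      omega
    · refine ⟨J, le_rfl, ?_, by omega⟩
      rw [Nat.mul_div_cancel_left _ (by omega)]
      exact hyx
  have h2 := err_between (q := q) (a := a) hu hyi
  have h3 : ((i * x / J : ℕ) : ℝ) - ((j * x / J : ℕ) : ℝ) ≤ (x : ℝ) / J + 1 := by
    have e1 : ((i * x / J : ℕ) : ℝ) ≤ ((i * x : ℕ) : ℝ) / J := Nat.cast_div_le
    have e2 : ((j * x : ℕ) : ℝ) / J < ((j * x / J : ℕ) : ℝ) + 1 := by
      rw [div_lt_iff₀ hJ0]
      have h4 := Nat.lt_div_mul_add (a := j * x) (b := J) (by omega)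
      have h5 : ((j * x : ℕ) : ℝ) < ((j * x / J * J + J : ℕ) : ℝ) := by exact_mod_cast h4
      rw [Nat.cast_add, Nat.cast_mul (j * x / J)] at h5
      linarith
    have e3 : ((i * x : ℕ) : ℝ) / J ≤ ((j * x : ℕ) : ℝ) / J + (x : ℝ) / J := by
      rw [← add_div]
      apply div_le_div_of_nonneg_right _ hJ0.le
      have h6 : i * x ≤ j * x + x := by
        calc i * x ≤ (j + 1) * x := Nat.mul_le_mul_right _ hij
          _ = j * x + x := by ring
      exact_mod_cast h6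
    linarith
  have h4 : (((i * x / J : ℕ) : ℝ) - ((j * x / J : ℕ) : ℝ)) / (Nat.totient q : ℝ) ≤
      ((x : ℝ) / J + 1) / (Nat.totient q : ℝ) :=
    div_le_div_of_nonneg_right h3 (Nat.cast_nonneg _)
  have h5 : err (j * x / J) q a ≤ ∑ j ∈ range (J + 1), err (j * x / J) q a :=
    single_le_sum (f := fun j => err (j * x / J) q a) (fun _ _ => err_nonneg _ _ _)
      (mem_range.2 (by omega))
  have h6 : err (i * x / J) q a ≤ ∑ j ∈ range (J + 1), err (j * x / J) q a :=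
    single_le_sum (f := fun j => err (j * x / J) q a) (fun _ _ => err_nonneg _ _ _)
      (mem_range.2 (by omega))
  linarith

lemma err_triv {y q a : ℕ} (ha : a < q) :
    err y q a ≤ (y : ℝ) * (1 / (q : ℝ)) + 1 + (y : ℝ) * (1 / (Nat.totient q : ℝ)) := by
  have h1 : (primePiAP y q a : ℝ) ≤ (y : ℝ) * (1 / (q : ℝ)) + 1 := by
    have h2 := piAP_le (x := y) (y := y) (q := q) le_rfl ha
    have h3 := card_filter_le (range (y / q + 1)) (fun t => (a + t * q).Prime)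
    rw [card_range] at h3
    have h4 : (primePiAP y q a : ℝ) ≤ ((y / q : ℕ) : ℝ) + 1 := by exact_mod_cast h2.trans h3
    have h5 : ((y / q : ℕ) : ℝ) ≤ (y : ℝ) / q := Nat.cast_div_le
    rw [mul_one_div]
    linarith
  have h2 : (primePi y : ℝ) / (Nat.totient q : ℝ) ≤ (y : ℝ) * (1 / (Nat.totient q : ℝ)) := by
    rw [mul_one_div]
    apply div_le_div_of_nonneg_right _ (Nat.cast_nonneg _)
    have h3 : primePi y ≤ y := by
      unfold primePi
      have := card_filter_le (Icc 1 y) (fun p : ℕ => p.Prime)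
      rw [Nat.card_Icc] at this
      omega
    exact_mod_cast h3
  have h3 : (0 : ℝ) ≤ primePiAP y q a := Nat.cast_nonneg _
  have h4 : (0 : ℝ) ≤ (primePi y : ℝ) / (Nat.totient q : ℝ) := by positivity
  unfold err
  rw [abs_le]
  constructor <;> linarith

lemma ratio_one {r : ℕ} (hr : 1 ≤ r) :
    1 / (Nat.totient r : ℝ) ≤ 1 / (r : ℝ) * ((r : ℝ) / Nat.totient r) ^ 2 ∧
    1 / (r : ℝ) ≤ 1 / (r : ℝ) * ((r : ℝ) / Nat.totient r) ^ 2 := by
  have hr0 : (0 : ℝ) < r := by exact_mod_cast hr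
  have hφ : (0 : ℝ) < Nat.totient r := by exact_mod_cast Nat.totient_pos.2 hr
  have h1 : 1 ≤ (r : ℝ) / Nat.totient r := by
    rw [le_div_iff₀ hφ, one_mul]
    exact_mod_cast Nat.totient_le r
  constructor
  · have h2 : 1 / (Nat.totient r : ℝ) = 1 / (r : ℝ) * ((r : ℝ) / Nat.totient r) := by
      field_simp
    rw [h2]
    apply mul_le_mul_of_nonneg_left _ (by positivity)
    nlinarith
  · have h2 : 1 / (r : ℝ) = 1 / (r : ℝ) * 1 := by ring
    nth_rewrite 1 [h2]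
    apply mul_le_mul_of_nonneg_left _ (by positivity)
    nlinarith

set_option maxHeartbeats 4000000 in
lemma main_nonneg {D : ℝ} (hD : 0 < D) (hphi : ∀ Y : ℕ, 1 ≤ Y →
    ∑ r ∈ Icc 1 Y, 1 / (r : ℝ) * ((r : ℝ) / Nat.totient r) ^ 2 ≤ D * (1 + Real.log Y))
    (hEH : EHa) {θ A : ℝ} (hθ0 : 0 ≤ θ) (hθ : θ < 1) (hA : 0 < A) :
    ∃ C : ℝ, 0 < C ∧ ∀ x : ℕ, 2 < x → ∀ a : ℕ → ℕ, (∀ q, 1 ≤ q → a q ∈ residues q) →
      ∑ q ∈ Icc 1 ⌊(x : ℝ) ^ θ⌋₊, errMax x q (a q) ≤ C * (x : ℝ) * Real.log x ^ (-A) := by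
  obtain ⟨η, hη⟩ : ∃ η : ℝ, η = (1 + θ) / 2 := ⟨_, rfl⟩
  have hη1 : 1 / 2 ≤ η := by linarith
  have hη2 : η < 1 := by linarith
  have hη3 : θ < η := by linarith
  have hη0 : 0 < η := by linarith
  have hθ1 : θ / η < 1 := by rwa [div_lt_one hη0]
  have hθ1' : 0 ≤ θ / η := by positivity
  obtain ⟨C1, hC1, hE⟩ := hEH (θ / η) hθ1 (2 * A + 3) (by linarith)
  obtain ⟨ε, hε⟩ : ∃ ε : ℝ, ε = (1 - η) / (2 * A + 3) := ⟨_, rfl⟩
  have hε0 : 0 < ε := by
    rw [hε]
    apply div_pos <;> linarith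
  obtain ⟨E, hEd⟩ : ∃ E : ℝ, E = (1 / ε) ^ (2 * A + 3) := ⟨_, rfl⟩
  have hE0 : 0 < E := by
    rw [hEd]
    positivity
  obtain ⟨B, hB⟩ : ∃ B : ℝ, B = (2 : ℝ) ^ (2 * A + 3) := ⟨_, rfl⟩
  have hB0 : 0 < B := by
    rw [hB]
    positivity
  refine ⟨6 * (C1 * B) + 6 * (8 * D + 1) * E + 2 * D + 2 * D * E, by positivity,
    fun x hx a ha => ?_⟩
  have hx3 : (3 : ℝ) ≤ x := by exact_mod_cast (by omega : 3 ≤ x)
  have hx1 : (1 : ℝ) ≤ x := by linarith
  have hx0 : (0 : ℝ) < x := by linarith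
  obtain ⟨L, hL⟩ : ∃ L : ℝ, L = Real.log x := ⟨_, rfl⟩
  have hL1 : 1 ≤ L := by
    rw [hL, Real.le_log_iff_exp_le hx0]
    have := Real.exp_one_lt_d9
    linarith
  have hL0 : 0 < L := by linarith
  rw [← hL]
  have hxη1 : 1 ≤ (x : ℝ) ^ η := Real.one_le_rpow hx1 hη0.le
  have hxη0 : 0 < (x : ℝ) ^ η := by linarith
  have hxθη : (x : ℝ) ^ θ ≤ (x : ℝ) ^ η := Real.rpow_le_rpow_of_exponent_le hx1 hη3.le
  -- the power beats the logarithms
  have hpow : L ^ (2 * A + 3) ≤ E * (x : ℝ) ^ (1 - η) := by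
    have h1 : L ≤ (x : ℝ) ^ ε / ε := by
      rw [hL]
      exact Real.log_le_rpow_div hx0.le hε0
    calc L ^ (2 * A + 3) ≤ ((x : ℝ) ^ ε / ε) ^ (2 * A + 3) :=
          Real.rpow_le_rpow hL0.le h1 (by linarith)
      _ = ((1 / ε) * (x : ℝ) ^ ε) ^ (2 * A + 3) := by
          congr 1
          ring
      _ = (1 / ε) ^ (2 * A + 3) * ((x : ℝ) ^ ε) ^ (2 * A + 3) :=
          Real.mul_rpow (by positivity) (by positivity)
      _ = E * (x : ℝ) ^ (1 - η) := by
          rw [← hEd, ← Real.rpow_mul hx0.le]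
          congr 2
          rw [hε]
          field_simp
  have hpowx : (x : ℝ) ^ (1 - η) * (x : ℝ) ^ η = x := by
    rw [← Real.rpow_add hx0, sub_add_cancel, Real.rpow_one]
  have hpow1 : L ^ (2 * A + 3) * (x : ℝ) ^ η ≤ E * x := by
    calc L ^ (2 * A + 3) * (x : ℝ) ^ η ≤ E * (x : ℝ) ^ (1 - η) * (x : ℝ) ^ η :=
          mul_le_mul_of_nonneg_right hpow hxη0.le
      _ = E * x := by rw [mul_assoc, hpowx]
  have hLA0 : 0 < L ^ (-A) := by positivity
  obtain ⟨Q, hQ⟩ : ∃ Q : ℕ, Q = ⌊(x : ℝ) ^ θ⌋₊ := ⟨_, rfl⟩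
  rw [← hQ]
  have hQθ : (Q : ℝ) ≤ (x : ℝ) ^ θ := by
    rw [hQ]
    exact Nat.floor_le (by positivity)
  have hQ1 : 1 ≤ Q := by
    rw [hQ]
    exact Nat.le_floor (by
      rw [Nat.cast_one]
      exact Real.one_le_rpow hx1 hθ0)
  have hQx : (Q : ℝ) ≤ x := by
    calc (Q : ℝ) ≤ (x : ℝ) ^ θ := hQθ
      _ ≤ (x : ℝ) ^ (1 : ℝ) := Real.rpow_le_rpow_of_exponent_le hx1 hθ.le
      _ = x := Real.rpow_one _
  have hW : ∑ r ∈ Icc 1 Q, 1 / (r : ℝ) * ((r : ℝ) / Nat.totient r) ^ 2 ≤ 2 * D * L := by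
    refine (hphi Q hQ1).trans ?_
    have h1 : Real.log Q ≤ L := by
      rw [hL]
      exact Real.log_le_log (by exact_mod_cast hQ1) hQx
    nlinarith
  have hW1 : ∑ r ∈ Icc 1 Q, 1 / (Nat.totient r : ℝ) ≤ 2 * D * L :=
    (sum_le_sum fun r hr => (ratio_one (mem_Icc.1 hr).1).1).trans hW
  have hW2 : ∑ r ∈ Icc 1 Q, 1 / (r : ℝ) ≤ 2 * D * L :=
    (sum_le_sum fun r hr => (ratio_one (mem_Icc.1 hr).1).2).trans hW
  have halt : ∀ q ∈ Icc 1 Q, a q < q := by
    intro q hq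
    have h1 := ha q (mem_Icc.1 hq).1
    unfold residues at h1
    exact mem_range.1 (mem_filter.1 h1).1
  -- the sum over the moduli for one length
  have hS : ∀ y : ℕ, y ≤ x → ∑ q ∈ Icc 1 Q, err y q (a q) ≤
      C1 * B * x * L ^ (-(2 * A + 3)) + (8 * D + 1) * (L * (x : ℝ) ^ η) := by
    intro y hyx
    have hyx' : (y : ℝ) ≤ x := by exact_mod_cast hyx
    have hnn1 : 0 ≤ C1 * B * x * L ^ (-(2 * A + 3)) := by positivity
    have hnn2 : 0 ≤ (8 * D + 1) * (L * (x : ℝ) ^ η) := by positivity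
    by_cases h : 2 < y ∧ (x : ℝ) ^ η ≤ y
    · obtain ⟨hy2, hyη⟩ := h
      have hy0 : (0 : ℝ) < y := by linarith
      have h1 : (x : ℝ) ^ θ ≤ (y : ℝ) ^ (θ / η) := by
        calc (x : ℝ) ^ θ = ((x : ℝ) ^ η) ^ (θ / η) := by
              rw [← Real.rpow_mul hx0.le]
              congr 1
              field_simp
          _ ≤ (y : ℝ) ^ (θ / η) := Real.rpow_le_rpow hxη0.le hyη hθ1'
      have h2 : Icc 1 Q ⊆ Icc 1 ⌊(y : ℝ) ^ (θ / η)⌋₊ := by
        rw [hQ]
        exact Icc_subset_Icc_right (Nat.floor_le_floor h1)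
      have h3 : ∑ q ∈ Icc 1 Q, err y q (a q) ≤ C1 * (y : ℝ) * Real.log y ^ (-(2 * A + 3)) :=
        (sum_le_sum_of_subset_of_nonneg h2 fun q _ _ => err_nonneg _ _ _).trans (hE y hy2 a ha)
      have h4 : L / 2 ≤ Real.log y := by
        have h5 : Real.log ((x : ℝ) ^ η) ≤ Real.log y := Real.log_le_log hxη0 hyη
        rw [Real.log_rpow hx0, ← hL] at h5
        nlinarith
      have h5 : Real.log y ^ (-(2 * A + 3)) ≤ (L / 2) ^ (-(2 * A + 3)) :=
        Real.rpow_le_rpow_of_nonpos (by positivity) h4 (by linarith)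
      have h6 : (L / 2) ^ (-(2 * A + 3)) = B * L ^ (-(2 * A + 3)) := by
        rw [Real.div_rpow hL0.le (by norm_num), hB, Real.rpow_neg (by norm_num : (0 : ℝ) ≤ 2),
          div_inv_eq_mul, mul_comm]
      rw [h6] at h5
      have h7 : C1 * (y : ℝ) * Real.log y ^ (-(2 * A + 3)) ≤
          C1 * x * (B * L ^ (-(2 * A + 3))) := by
        apply mul_le_mul (mul_le_mul_of_nonneg_left hyx' hC1.le) h5 _ (by positivity)
        exact Real.rpow_nonneg (by linarith [hL0]) _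
      have h8 : C1 * x * (B * L ^ (-(2 * A + 3))) = C1 * B * x * L ^ (-(2 * A + 3)) := by ring
      linarith
    · have hy : (y : ℝ) ≤ 2 * (x : ℝ) ^ η := by
        rcases le_or_gt y 2 with h1 | h1
        · have h2 : (y : ℝ) ≤ 2 := by exact_mod_cast h1
          linarith
        · have h2 : (y : ℝ) < (x : ℝ) ^ η := by
            by_contra h3
            exact h ⟨h1, not_lt.1 h3⟩
          linarith
      have h1 : ∑ q ∈ Icc 1 Q, err y q (a q) ≤ ∑ q ∈ Icc 1 Q,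
          ((y : ℝ) * (1 / (q : ℝ)) + 1 + (y : ℝ) * (1 / (Nat.totient q : ℝ))) :=
        sum_le_sum fun q hq => err_triv (halt q hq)
      rw [sum_add_distrib, sum_add_distrib, ← mul_sum, ← mul_sum, sum_const, Nat.card_Icc,
        nsmul_eq_mul, mul_one] at h1
      have h2 : ((Q + 1 - 1 : ℕ) : ℝ) = Q := by
        rw [Nat.add_sub_cancel]
      rw [h2] at h1
      have hy0 : (0 : ℝ) ≤ y := Nat.cast_nonneg y
      have h3 : (y : ℝ) * ∑ q ∈ Icc 1 Q, 1 / (q : ℝ) ≤ 2 * (x : ℝ) ^ η * (2 * D * L) :=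
        mul_le_mul hy hW2 (sum_nonneg fun q _ => by positivity) (by positivity)
      have h4 : (y : ℝ) * ∑ q ∈ Icc 1 Q, 1 / (Nat.totient q : ℝ) ≤
          2 * (x : ℝ) ^ η * (2 * D * L) :=
        mul_le_mul hy hW1 (sum_nonneg fun q _ => by positivity) (by positivity)
      have h5 : (Q : ℝ) ≤ L * (x : ℝ) ^ η := by nlinarith
      have h6 : 2 * (x : ℝ) ^ η * (2 * D * L) + L * (x : ℝ) ^ η +
          2 * (x : ℝ) ^ η * (2 * D * L) = (8 * D + 1) * (L * (x : ℝ) ^ η) := by ring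
      linarith
  -- the points
  obtain ⟨J, hJ⟩ : ∃ J : ℕ, J = ⌈L ^ (A + 2)⌉₊ := ⟨_, rfl⟩
  have hLA2 : 1 ≤ L ^ (A + 2) := Real.one_le_rpow hL1 (by linarith)
  have hJl : L ^ (A + 2) ≤ J := by
    rw [hJ]
    exact Nat.le_ceil _
  have hJu : (J : ℝ) < L ^ (A + 2) + 1 := by
    rw [hJ]
    exact Nat.ceil_lt_add_one (by positivity)
  have hJ1 : 1 ≤ J := by
    have : (1 : ℝ) ≤ J := hLA2.trans hJl
    exact_mod_cast this
  have hJ0 : (0 : ℝ) < J := by exact_mod_cast hJ1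
  have hsum : ∑ q ∈ Icc 1 Q, errMax x q (a q) ≤
      2 * ∑ j ∈ range (J + 1), ∑ q ∈ Icc 1 Q, err (j * x / J) q (a q) +
        ((x : ℝ) / J + 1) * ∑ q ∈ Icc 1 Q, 1 / (Nat.totient q : ℝ) := by
    calc ∑ q ∈ Icc 1 Q, errMax x q (a q)
        ≤ ∑ q ∈ Icc 1 Q, (2 * ∑ j ∈ range (J + 1), err (j * x / J) q (a q) +
          ((x : ℝ) / J + 1) / (Nat.totient q : ℝ)) :=
          sum_le_sum fun q _ => errMax_le (by omega) hJ1
      _ = _ := by
          rw [sum_add_distrib, ← mul_sum, sum_comm, mul_sum (Icc 1 Q) _ ((x : ℝ) / J + 1)]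
          congr 1
          apply sum_congr rfl
          intro q _
          rw [mul_one_div]
  have hS2 : ∑ j ∈ range (J + 1), ∑ q ∈ Icc 1 Q, err (j * x / J) q (a q) ≤
      ((J : ℝ) + 1) * (C1 * B * x * L ^ (-(2 * A + 3)) + (8 * D + 1) * (L * (x : ℝ) ^ η)) := by
    calc _ ≤ ∑ j ∈ range (J + 1),
          (C1 * B * x * L ^ (-(2 * A + 3)) + (8 * D + 1) * (L * (x : ℝ) ^ η)) := by
          apply sum_le_sum
          intro j hj
          apply hS
          have hj' : j ≤ J := by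
            have := mem_range.1 hj
            omega
          calc j * x / J ≤ J * x / J := Nat.div_le_div_right (Nat.mul_le_mul_right _ hj')
            _ = x := Nat.mul_div_cancel_left _ (by omega)
      _ = _ := by
          rw [sum_const, card_range, nsmul_eq_mul]
          push_cast
          ring
  have hJ3 : (J : ℝ) + 1 ≤ 3 * L ^ (A + 2) := by linarith
  have hnn : 0 ≤ C1 * B * x * L ^ (-(2 * A + 3)) + (8 * D + 1) * (L * (x : ℝ) ^ η) := by
    positivity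
  have hm1 : L ^ (A + 2) * L ^ (-(2 * A + 3)) ≤ L ^ (-A) := by
    rw [← Real.rpow_add hL0]
    exact Real.rpow_le_rpow_of_exponent_le hL1 (by linarith)
  have hm2 : L ^ (A + 2) * (L * (x : ℝ) ^ η) ≤ E * x * L ^ (-A) := by
    have h1 : L ^ (A + 2) * L = L ^ (-A) * L ^ (2 * A + 3) := by
      rw [← Real.rpow_add hL0]
      nth_rewrite 2 [← Real.rpow_one L]
      rw [← Real.rpow_add hL0]
      congr 1
      ring
    calc L ^ (A + 2) * (L * (x : ℝ) ^ η) = L ^ (-A) * (L ^ (2 * A + 3) * (x : ℝ) ^ η) := by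
          rw [← mul_assoc, h1, mul_assoc]
      _ ≤ L ^ (-A) * (E * x) := mul_le_mul_of_nonneg_left hpow1 hLA0.le
      _ = E * x * L ^ (-A) := by ring
  have hfirst : 2 * ∑ j ∈ range (J + 1), ∑ q ∈ Icc 1 Q, err (j * x / J) q (a q) ≤
      (6 * (C1 * B) + 6 * (8 * D + 1) * E) * x * L ^ (-A) := by
    calc 2 * ∑ j ∈ range (J + 1), ∑ q ∈ Icc 1 Q, err (j * x / J) q (a q)
        ≤ 2 * (((J : ℝ) + 1) *
          (C1 * B * x * L ^ (-(2 * A + 3)) + (8 * D + 1) * (L * (x : ℝ) ^ η))) := by linarith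
      _ ≤ 2 * ((3 * L ^ (A + 2)) *
          (C1 * B * x * L ^ (-(2 * A + 3)) + (8 * D + 1) * (L * (x : ℝ) ^ η))) := by
          have := mul_le_mul_of_nonneg_right hJ3 hnn
          linarith
      _ = 6 * (C1 * B) * x * (L ^ (A + 2) * L ^ (-(2 * A + 3))) +
          6 * (8 * D + 1) * (L ^ (A + 2) * (L * (x : ℝ) ^ η)) := by ring
      _ ≤ 6 * (C1 * B) * x * L ^ (-A) + 6 * (8 * D + 1) * (E * x * L ^ (-A)) := by
          apply add_le_add
          · exact mul_le_mul_of_nonneg_left hm1 (by positivity)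
          · exact mul_le_mul_of_nonneg_left hm2 (by positivity)
      _ = _ := by ring
  have hsecond : ((x : ℝ) / J + 1) * ∑ q ∈ Icc 1 Q, 1 / (Nat.totient q : ℝ) ≤
      (2 * D + 2 * D * E) * x * L ^ (-A) := by
    have h1 : (x : ℝ) / J * L ≤ x * L ^ (-A) := by
      rw [div_mul_eq_mul_div, div_le_iff₀ hJ0]
      have h2 : L ≤ L ^ (-A) * J := by
        calc L ≤ L ^ (-A) * L ^ (A + 2) := by
              rw [← Real.rpow_add hL0]
              nth_rewrite 1 [← Real.rpow_one L]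
              exact Real.rpow_le_rpow_of_exponent_le hL1 (by linarith)
          _ ≤ L ^ (-A) * J := mul_le_mul_of_nonneg_left hJl hLA0.le
      nlinarith
    have h3 : L ≤ E * x * L ^ (-A) := by
      have h4 : L ≤ L ^ (A + 2) * (L * (x : ℝ) ^ η) := by
        have h5 : 1 ≤ L ^ (A + 2) * (x : ℝ) ^ η := one_le_mul_of_one_le_of_one_le hLA2 hxη1
        nlinarith
      exact h4.trans hm2
    have h6 : 0 ≤ (x : ℝ) / J + 1 := by positivity
    calc ((x : ℝ) / J + 1) * ∑ q ∈ Icc 1 Q, 1 / (Nat.totient q : ℝ)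
        ≤ ((x : ℝ) / J + 1) * (2 * D * L) := mul_le_mul_of_nonneg_left hW1 h6
      _ = 2 * D * ((x : ℝ) / J * L) + 2 * D * L := by ring
      _ ≤ 2 * D * (x * L ^ (-A)) + 2 * D * (E * x * L ^ (-A)) := by
          apply add_le_add
          · exact mul_le_mul_of_nonneg_left h1 (by positivity)
          · exact mul_le_mul_of_nonneg_left h3 (by positivity)
      _ = _ := by ring
  calc ∑ q ∈ Icc 1 Q, errMax x q (a q) ≤ _ := hsum
    _ ≤ (6 * (C1 * B) + 6 * (8 * D + 1) * E) * x * L ^ (-A) +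
        (2 * D + 2 * D * E) * x * L ^ (-A) := add_le_add hfirst hsecond
    _ = _ := by ring

/-- JOB Y -/
theorem t_Y : S_PHI → S_Y := by
  rintro ⟨D, hD, hphi⟩ hEH θ hθ A hA
  rcases le_or_gt 0 θ with h | h
  · exact main_nonneg hD hphi hEH h hθ hA
  · obtain ⟨C, hC, h1⟩ := main_nonneg hD hphi hEH le_rfl one_pos hA
    refine ⟨C, hC, fun x hx a ha => ?_⟩
    refine le_trans ?_ (h1 x hx a ha)
    apply sum_le_sum_of_subset_of_nonneg
    · apply Icc_subset_Icc_right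
      apply Nat.floor_le_floor
      exact Real.rpow_le_rpow_of_exponent_le (by exact_mod_cast (by omega : 1 ≤ x)) h.le
    · intro q _ _
      exact errMax_nonneg _ _ _

end Pool.Agent.V7H94.ET
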